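import Mathlib
import Pool.Agent.Q152.ZP.Facts

set_option autoImplicit false
set_option maxRecDepth 100000

/-!
# Soundness of the search engine
-/

namespace Pool.Agent.Q152.ZP

/-! ## The lowest bit -/

theorem lowbit : ∀ h : ℕ, h ≠ 0 → ∃ g, Nat.testBit h g = true ∧
    ∀ i, Nat.testBit (h &&& (h - 1)) i = (Nat.testBit h i && decide (i ≠ g)) := by
  intro h
  induction h using Nat.strong_induction_on with
  | _ h ih =>
    intro h0
    rcases Nat.even_or_odd' h with ⟨a, rfl | rfl⟩
    · obtain ⟨g, h1, h3⟩ := ih a (by omega) (by omega)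
      refine ⟨g + 1, ?_, ?_⟩
      · rw [Nat.testBit_succ]
        have : 2 * a / 2 = a := by omega
        rw [this]; exact h1
      · intro i
        rw [Nat.testBit_and]
        cases i with
        | zero => simp [Nat.testBit_zero]
        | succ i =>
          rw [Nat.testBit_succ, Nat.testBit_succ]
          have e1 : 2 * a / 2 = a := by omega
          have e2 : (2 * a - 1) / 2 = a - 1 := by omega
          rw [e1, e2, ← Nat.testBit_and, h3 i]
          simp
    · refine ⟨0, ?_, ?_⟩
      · simp [Nat.testBit_zero]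
      · intro i
        rw [Nat.testBit_and]
        cases i with
        | zero => simp [Nat.testBit_zero]
        | succ i =>
          rw [Nat.testBit_succ, Nat.testBit_succ]
          have e1 : (2 * a + 1) / 2 = a := by omega
          have e2 : (2 * a + 1 - 1) / 2 = a := by omega
          rw [e1, e2]
          simp

theorem low_xor {h g : ℕ} (h1 : Nat.testBit h g = true)
    (h2 : ∀ i, Nat.testBit (h &&& (h - 1)) i = (Nat.testBit h i && decide (i ≠ g))) :
    h ^^^ (h &&& (h - 1)) = 2 ^ g := by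
  apply Nat.eq_of_testBit_eq
  intro j
  rw [Nat.testBit_xor, Nat.testBit_two_pow, h2]
  by_cases hj : j = g
  · subst hj
    simp [h1]
  · simp [hj, Ne.symm hj]

/-! ## Near residues -/

/-- at distance at most one from zero -/
def nr (z : ZMod 27) : Prop := z = 0 ∨ z = 1 ∨ z = -1

instance (z : ZMod 27) : Decidable (nr z) := by unfold nr; infer_instance

theorem nr_of_nb {n : ℕ} (h : nb n = true) : nr (n : ZMod 27) := by
  unfold nb at h
  rw [Bool.or_eq_true, Bool.or_eq_true] at h
  have e : (n : ZMod 27) = ((n % 27 : ℕ) : ZMod 27) := (ZMod.natCast_mod n 27).symm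
  rcases h with (h | h) | h
  · rw [e, Nat.eq_of_beq_eq_true h]; left; rfl
  · rw [e, Nat.eq_of_beq_eq_true h]; right; left; rfl
  · rw [e, Nat.eq_of_beq_eq_true h]; right; right; rfl

theorem nr_neg {z : ZMod 27} (h : nr z) : nr (-z) := by
  revert z; decide

theorem P_near {R C : ℕ} (hR : R < 107) (hC : C < 107) (h : Nat.testBit cP (108 * R + C) = true) :
    nr (R : ZMod 27) ∧ nr (C : ZMod 27) := by
  have h1 := chkP
  rw [List.all_eq_true] at h1
  have h2 := h1 R (List.mem_range.2 hR)
  rw [List.all_eq_true] at h2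
  have h3 := h2 C (List.mem_range.2 hC)
  rw [h, Bool.not_true, Bool.false_or, Bool.and_eq_true] at h3
  exact ⟨nr_of_nb h3.1, nr_of_nb h3.2⟩

theorem H_near {R C : ℕ} (hR : R < 79) (hC : C < 79) (h : Nat.testBit cH (108 * R + C) = true) :
    nr (2 * (R : ZMod 27)) ∧ nr (2 * (C : ZMod 27)) := by
  have h1 := chkH
  rw [List.all_eq_true] at h1
  have h2 := h1 R (List.mem_range.2 hR)
  rw [List.all_eq_true] at h2
  have h3 := h2 C (List.mem_range.2 hC)
  rw [h, Bool.not_true, Bool.false_or, Bool.and_eq_true] at h3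
  have e1 := nr_of_nb h3.1
  have e2 := nr_of_nb h3.2
  push_cast at e1 e2
  exact ⟨e1, e2⟩

theorem F_bit {j : ℕ} : Nat.testBit cF j = true ↔ j % 108 < 27 ∧ j / 108 < 27 := by
  by_cases hj : j < 4096
  · have h1 := chkF
    rw [List.all_eq_true] at h1
    have h2 := h1 j (List.mem_range.2 hj)
    rw [beq_iff_eq] at h2
    rw [h2, Bool.and_eq_true, Nat.blt_eq, Nat.blt_eq]
  · constructor
    · intro h
      rw [Nat.testBit_lt_two_pow (lt_of_lt_of_le cF_lt (Nat.pow_le_pow_right (by norm_num)
        (by omega)))] at h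
      exact absurd h (by simp)
    · intro h
      omega

theorem G_bit {j : ℕ} (h : Nat.testBit cG j = true) : j % 108 = 27 ∧ j / 108 < 27 := by
  by_cases hj : j < 4096
  · have h1 := chkG
    rw [List.all_eq_true] at h1
    have h2 := h1 j (List.mem_range.2 hj)
    rw [h, Bool.not_true, Bool.false_or, Bool.and_eq_true, Nat.blt_eq] at h2
    exact ⟨Nat.eq_of_beq_eq_true h2.1, h2.2⟩
  · rw [Nat.testBit_lt_two_pow (lt_of_lt_of_le cG_lt (Nat.pow_le_pow_right (by norm_num)
        (by omega)))] at h
    exact absurd h (by simp)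

/-! ## The test for empty rows -/

theorem carry : ∀ (n A : ℕ), (∀ j, Nat.testBit A j = true → j % 108 < 27) →
    (∀ r < n, ∃ v < 27, Nat.testBit A (108 * r + v) = true) →
    ∀ r < n, Nat.testBit (A + kk n) (108 * r + 27) = true := by
  intro n
  induction n with
  | zero => intro A _ _ r hr; omega
  | succ n ih =>
    intro A h1 h2 r hr
    have hA : A = 2 ^ 108 * (A / 2 ^ 108) + A % 2 ^ 108 := (Nat.div_add_mod A (2 ^ 108)).symm
    have hlow : A % 2 ^ 108 < 2 ^ 27 := by
      apply Nat.lt_pow_two_of_testBit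
      intro i hi
      rw [Nat.testBit_mod_two_pow]
      by_cases hi2 : i < 108
      · cases hb : Nat.testBit A i
        · simp
        · have := h1 i hb
          omega
      · simp [hi2]
    have hpos : 0 < A % 2 ^ 108 := by
      obtain ⟨v, hv, hv2⟩ := h2 0 (by omega)
      rw [Nat.mul_zero, Nat.zero_add] at hv2
      rcases Nat.eq_zero_or_pos (A % 2 ^ 108) with h | h
      · have : Nat.testBit (A % 2 ^ 108) v = true := by
          rw [Nat.testBit_mod_two_pow, hv2]
          simp; omega
        rw [h] at this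
        simp at this
      · exact h
    have hhigh : ∀ j, Nat.testBit (A / 2 ^ 108) j = Nat.testBit A (108 + j) := by
      intro j
      rw [← Nat.shiftRight_eq_div_pow, Nat.testBit_shiftRight]
    have hsum : A + kk (n + 1) = 2 ^ 108 * (A / 2 ^ 108 + kk n) + (A % 2 ^ 108 + (2 ^ 27 - 1)) := by
      show A + (2 ^ 108 * kk n + (2 ^ 27 - 1)) = _
      conv_lhs => rw [hA]
      ring
    have hlt : A % 2 ^ 108 + (2 ^ 27 - 1) < 2 ^ 108 := by
      have e : (2 : ℕ) ^ 27 + 2 ^ 27 < 2 ^ 108 := by norm_num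
      omega
    rw [hsum, Nat.testBit_two_pow_mul_add _ hlt]
    cases r with
    | zero =>
      rw [if_pos (by omega), Nat.mul_zero, Nat.zero_add]
      obtain ⟨w, hw⟩ : ∃ w, A % 2 ^ 108 + (2 ^ 27 - 1) = 2 ^ 27 * 1 + w ∧ w < 2 ^ 27 :=
        ⟨A % 2 ^ 108 - 1, by omega, by omega⟩
      rw [hw.1, Nat.testBit_two_pow_mul_add _ hw.2]
      simp
    | succ r =>
      have e : 108 * (r + 1) + 27 - 108 = 108 * r + 27 := by omega
      rw [if_neg (by omega), e]
      apply ih (A / 2 ^ 108) _ _ r (by omega)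
      · intro j hj
        rw [hhigh] at hj
        have := h1 _ hj
        omega
      · intro r hr
        obtain ⟨v, hv, hv2⟩ := h2 (r + 1) (by omega)
        refine ⟨v, hv, ?_⟩
        rw [hhigh]
        have e : 108 + (108 * r + v) = 108 * (r + 1) + v := by ring
        rw [e]; exact hv2

theorem rows_true {A : ℕ} (h1 : ∀ j, Nat.testBit A j = true → j % 108 < 27)
    (h2 : ∀ r < 27, ∃ v < 27, Nat.testBit A (108 * r + v) = true) : rows A = true := by
  rw [rows_eq]
  have h : (A + cF) &&& cG = cG := by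
    apply Nat.eq_of_testBit_eq
    intro j
    rw [Nat.testBit_and]
    cases hb : Nat.testBit cG j
    · simp
    · obtain ⟨h3, h4⟩ := G_bit hb
      have e : j = 108 * (j / 108) + 27 := by omega
      have := carry 27 A h1 h2 (j / 108) h4
      rw [← kk_27, ← e] at this
      rw [this]
      rfl
  rw [h]
  exact Nat.beq_refl cG

/-! ## Permutations -/

/-- the properties of the permutation which are used by the search -/
structure Nice (L : List ℕ) (p : ZMod 27 → ZMod 27) : Prop where
  surj : Function.Surjective p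
  good : ∀ a b c, ¬ (a = b ∧ b = c) → nr (a + c - 2 * b) → ¬ nr (p a + p c - 2 * p b)
  av : ∀ a b, a - b = 1 → ab (p a - p b).val ∉ L
  av' : ∀ a b, p a - p b = 1 → ab (a - b).val ∉ L

theorem val_lt' (a : ZMod 27) : a.val < 27 := ZMod.val_lt a

theorem ab_neg (u : ZMod 27) (h : u ≠ 0) : ab (-u).val = ab u.val := by
  revert u; decide

theorem ab_one {u : ZMod 27} (h : Nat.beq (ab u.val) 1 = true) : u = 1 ∨ u = -1 := by
  revert u; decide

theorem ab_le_one {u : ZMod 27} (h : Nat.ble (ab u.val) 1 = true) : nr u := by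
  revert u; decide

theorem ab_thirteen {u : ZMod 27} (h : Nat.beq (ab u.val) 13 = true) : nr (2 * u) := by
  revert u; decide

theorem Nice.ex {L : List ℕ} {p : ZMod 27 → ZMod 27} (hp : Nice L p) {a b : ZMod 27} (hab : a ≠ b) :
    exN L (a - b).val (p a - p b).val = false := by
  have hinj : ∀ a b, a ≠ b → nr (a - b) → ¬ nr (p a - p b) := by
    intro a b hab h1
    have := hp.good b b a (fun h => hab (by rw [← h.2]))
    have e1 : b + a - 2 * b = a - b := by ring
    have e2 : p b + p a - 2 * p b = p a - p b := by ring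
    rw [e1, e2] at this
    exact this h1
  have hu : a - b ≠ 0 := sub_ne_zero.2 hab
  have hbij : Function.Injective p := Finite.injective_iff_surjective.2 hp.surj
  have hv : p a - p b ≠ 0 := sub_ne_zero.2 (fun h => hab (hbij h))
  by_contra hc
  rw [Bool.not_eq_false] at hc
  unfold exN at hc
  simp only [Bool.or_eq_true, Bool.and_eq_true] at hc
  rcases hc with (((h | h) | h) | h) | h
  · exact hu ((ZMod.val_eq_zero _).1 (Nat.eq_of_beq_eq_true h))
  · exact hv ((ZMod.val_eq_zero _).1 (Nat.eq_of_beq_eq_true h))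
  · obtain ⟨h1, h2⟩ := h
    have hn : nr (a - b) := by
      rcases ab_one h1 with h | h
      · right; left; exact h
      · right; right; exact h
    rcases h2 with h2 | h2
    · exact hinj a b hab hn (ab_le_one h2)
    · rw [List.contains_iff_mem] at h2
      rcases ab_one h1 with h | h
      · exact hp.av a b h h2
      · have h3 : b - a = 1 := by rw [← neg_sub, h, neg_neg]
        apply hp.av b a h3
        rw [← neg_sub, ab_neg _ hv]
        exact h2
  · obtain ⟨h1, h2⟩ := h
    have hn : nr (p a - p b) := by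
      rcases ab_one h1 with h | h
      · right; left; exact h
      · right; right; exact h
    rcases h2 with h2 | h2
    · exact hinj a b hab (ab_le_one h2) hn
    · rw [List.contains_iff_mem] at h2
      rcases ab_one h1 with h | h
      · exact hp.av' a b h h2
      · have h3 : p b - p a = 1 := by rw [← neg_sub, h, neg_neg]
        apply hp.av' b a h3
        rw [← neg_sub, ab_neg _ hu]
        exact h2
  · have h1 := ab_thirteen h.1
    have h2 := ab_thirteen h.2
    apply hp.good a b a (fun h => hab h.1)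
    · have e : a + a - 2 * b = 2 * (a - b) := by ring
      rw [e]; exact h1
    · have e : p a + p a - 2 * p b = 2 * (p a - p b) := by ring
      rw [e]; exact h2

/-! ## The invariant -/

/-- the bit of the point `(a, p a)` -/
def cell (p : ZMod 27 → ZMod 27) (a : ZMod 27) : ℕ := 108 * a.val + (p a).val

/-- the shift for the third kind of triples -/
def tt (p : ZMod 27 → ZMod 27) (a : ZMod 27) : ℕ := 108 * ((13 * a.val) % 27) + (13 * (p a).val) % 27

structure Inv (p : ZMod 27 → ZMod 27) (dom D N H : ℕ) : Prop where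
  cells : ∀ r : ZMod 27, Nat.testBit dom (cell p r) = true
  field : ∀ j, Nat.testBit dom j = true → j % 108 < 27
  hD : ∀ R C : ℕ, R ≤ 52 → C ≤ 52 → Nat.testBit D (108 * R + C) = true →
    ∃ x : ZMod 27, nr ((R : ZMod 27) - 2 * x) ∧ nr ((C : ZMod 27) - 2 * p x)
  hN : ∀ R C : ℕ, R ≤ 80 → C ≤ 80 → Nat.testBit N (108 * R + C) = true →
    ∃ x : ZMod 27, nr ((R : ZMod 27) + x) ∧ nr ((C : ZMod 27) + p x)
  hH : ∀ R C : ℕ, R ≤ 52 → C ≤ 52 → Nat.testBit H (108 * R + C) = true →
    ∃ x : ZMod 27, nr (2 * (R : ZMod 27) - x) ∧ nr (2 * (C : ZMod 27) - p x)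

theorem cast_val (a : ZMod 27) : ((a.val : ℕ) : ZMod 27) = a := ZMod.natCast_zmod_val a

theorem two_mul_thirteen (a : ZMod 27) : 2 * (13 * a) = -a := by
  revert a; decide

theorem cell_ne {p : ZMod 27 → ZMod 27} {a r : ZMod 27} (h : r ≠ a) : cell p r ≠ cell p a := by
  intro hc
  unfold cell at hc
  have h1 := val_lt' (p r)
  have h2 := val_lt' (p a)
  apply h
  apply ZMod.val_injective
  omega

/-- a set of excluded differences -/
def EGood (E : ℕ) (L : List ℕ) : Prop := ∀ X Y : ℕ, X < 53 → Y < 53 →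
  Nat.testBit E (108 * X + Y) = true → exN L ((X + 1) % 27) ((Y + 1) % 27) = true

theorem EGood_of {E : ℕ} {L : List ℕ} (h : tE E L = true) : EGood E L := by
  intro X Y hX hY hb
  unfold tE at h
  rw [List.all_eq_true] at h
  have h2 := h X (List.mem_range.2 hX)
  rw [List.all_eq_true] at h2
  have h3 := h2 Y (List.mem_range.2 hY)
  rw [hb, Bool.not_true, Bool.false_or] at h3
  exact h3

theorem diff_val (a b : ZMod 27) : (26 + a.val - b.val + 1) % 27 = (a - b).val := by
  have h1 := val_lt' a
  have h2 := val_lt' b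
  have e : 26 + a.val - b.val + 1 = 27 + a.val - b.val := by omega
  rw [e]
  have e2 : ((27 + a.val - b.val : ℕ) : ZMod 27) = a - b := by
    rw [Nat.cast_sub (by omega), Nat.cast_add, cast_val, cast_val]
    have : ((27 : ℕ) : ZMod 27) = 0 := by decide
    rw [this, zero_add]
  rw [← e2, ZMod.val_natCast]

theorem kil_false {L : List ℕ} {p : ZMod 27 → ZMod 27} {E dom D N H : ℕ} (hE : EGood E L)
    (hp : Nice L p) (hi : Inv p dom D N H) {a r : ZMod 27} (h : r ≠ a) :
    Nat.testBit (kil E D N H (cell p a) (tt p a)) (cell p r) = false := by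
  have ha := val_lt' a
  have hr := val_lt' r
  have hpa := val_lt' (p a)
  have hpr := val_lt' (p r)
  rw [kil_eq, Nat.testBit_or, Nat.testBit_or, Nat.testBit_or, Nat.testBit_shiftRight,
    Nat.testBit_shiftRight, Nat.testBit_shiftRight, Nat.testBit_shiftRight]
  have hx : ∀ x : ZMod 27, ¬ (r = x ∧ x = a) := by
    intro x hx
    exact h (hx.1.trans hx.2)
  rw [Bool.or_eq_false_iff, Bool.or_eq_false_iff, Bool.or_eq_false_iff]
  refine ⟨⟨?_, ?_⟩, ?_, ?_⟩
  · by_contra hc
    rw [Bool.not_eq_false] at hc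
    have e : cell p a + cell p r = 108 * (r.val + a.val) + ((p r).val + (p a).val) := by
      unfold cell; ring
    rw [e] at hc
    obtain ⟨x, h1, h2⟩ := hi.hD _ _ (by omega) (by omega) hc
    rw [Nat.cast_add, cast_val, cast_val] at h1 h2
    exact hp.good r x a (hx x) h1 h2
  · by_contra hc
    rw [Bool.not_eq_false] at hc
    have e : 5886 - (cell p a + cell p a) + cell p r =
        108 * (r.val + 54 - 2 * a.val) + ((p r).val + 54 - 2 * (p a).val) := by
      unfold cell; omega
    rw [e] at hc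
    obtain ⟨x, h1, h2⟩ := hi.hN _ _ (by omega) (by omega) hc
    have h54 : ((54 : ℕ) : ZMod 27) = 0 := by decide
    rw [Nat.cast_sub (by omega), Nat.cast_add, h54, Nat.cast_mul, cast_val, cast_val, add_zero]
      at h1 h2
    apply hp.good r a x (fun h' => h h'.1)
    · have e : r + x - 2 * a = r - ((2 : ℕ) : ZMod 27) * a + x := by push_cast; ring
      rw [e]; exact h1
    · have e : p r + p x - 2 * p a = p r - ((2 : ℕ) : ZMod 27) * p a + p x := by push_cast; ring
      rw [e]; exact h2
  · by_contra hc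
    rw [Bool.not_eq_false] at hc
    have e : tt p a + cell p r =
        108 * (r.val + (13 * a.val) % 27) + ((p r).val + (13 * (p a).val) % 27) := by
      unfold cell tt; ring
    rw [e] at hc
    obtain ⟨x, h1, h2⟩ := hi.hH _ _ (by omega) (by omega) hc
    rw [Nat.cast_add, ZMod.natCast_mod, Nat.cast_mul, cast_val, cast_val] at h1 h2
    apply hp.good a r x (fun h' => h h'.1.symm)
    · have e : a + x - 2 * r = -(2 * (r + ((13 : ℕ) : ZMod 27) * a) - x) := by
        have := two_mul_thirteen a
        have e : 2 * (r + ((13 : ℕ) : ZMod 27) * a) = 2 * r + 2 * (13 * a) := by push_cast; ring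
        rw [e, this]; ring
      rw [e]; exact nr_neg h1
    · have e : p a + p x - 2 * p r = -(2 * (p r + ((13 : ℕ) : ZMod 27) * p a) - p x) := by
        have := two_mul_thirteen (p a)
        have e : 2 * (p r + ((13 : ℕ) : ZMod 27) * p a) = 2 * p r + 2 * (13 * p a) := by
          push_cast; ring
        rw [e, this]; ring
      rw [e]; exact nr_neg h2
  · by_contra hc
    rw [Bool.not_eq_false] at hc
    have e : 2834 - cell p a + cell p r =
        108 * (26 + r.val - a.val) + (26 + (p r).val - (p a).val) := by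
      unfold cell; omega
    rw [e] at hc
    have := hE _ _ (by omega) (by omega) hc
    rw [diff_val, diff_val, hp.ex h] at this
    exact absurd this (by simp)

theorem step {L : List ℕ} {p : ZMod 27 → ZMod 27} {E dom D N H : ℕ} (hE : EGood E L)
    (hp : Nice L p) (hi : Inv p dom D N H) (a : ZMod 27) :
    rows (nd E dom D N H (cell p a) (tt p a) (2 ^ cell p a)) = true ∧
    Inv p (nd E dom D N H (cell p a) (tt p a) (2 ^ cell p a)) (nD D (cell p a)) (nN N (cell p a))
      (nH H (tt p a)) := by
  have ha := val_lt' a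
  have hpa := val_lt' (p a)
  have hcells : ∀ r : ZMod 27,
      Nat.testBit (nd E dom D N H (cell p a) (tt p a) (2 ^ cell p a)) (cell p r) = true := by
    intro r
    rw [nd_eq, Nat.testBit_or, Nat.testBit_xor, Nat.testBit_and, Nat.testBit_two_pow]
    by_cases h : r = a
    · subst h; simp
    · rw [kil_false hE hp hi h, hi.cells r]
      simp
  have hfield : ∀ j, Nat.testBit (nd E dom D N H (cell p a) (tt p a) (2 ^ cell p a)) j = true →
      j % 108 < 27 := by
    intro j hj
    rw [nd_eq, Nat.testBit_or, Nat.testBit_xor, Nat.testBit_and, Nat.testBit_two_pow,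
      Bool.or_eq_true] at hj
    rcases hj with hj | hj
    · apply hi.field j
      cases hb : Nat.testBit dom j
      · rw [hb] at hj; simp at hj
      · rfl
    · rw [decide_eq_true_iff] at hj
      rw [← hj]
      unfold cell
      omega
  refine ⟨rows_true hfield ?_, ⟨hcells, hfield, ?_, ?_, ?_⟩⟩
  · intro r hr
    refine ⟨(p (r : ZMod 27)).val, val_lt' _, ?_⟩
    have := hcells (r : ZMod 27)
    unfold cell at this
    rw [ZMod.val_natCast, Nat.mod_eq_of_lt hr] at this
    unfold cell
    exact this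
  · intro R C hR hC hb
    rw [nD_eq, Nat.testBit_or, Bool.or_eq_true] at hb
    rcases hb with hb | hb
    · exact hi.hD R C hR hC hb
    · rw [Nat.testBit_shiftRight] at hb
      have e : 5886 - (cell p a + cell p a) + (108 * R + C) =
          108 * (R + 54 - 2 * a.val) + (C + 54 - 2 * (p a).val) := by
        unfold cell; omega
      rw [e] at hb
      obtain ⟨h1, h2⟩ := P_near (by omega) (by omega) hb
      have h54 : ((54 : ℕ) : ZMod 27) = 0 := by decide
      rw [Nat.cast_sub (by omega), Nat.cast_add, h54, Nat.cast_mul, cast_val, add_zero] at h1 h2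
      exact ⟨a, h1, h2⟩
  · intro R C hR hC hb
    rw [nN_eq, Nat.testBit_or, Bool.or_eq_true] at hb
    rcases hb with hb | hb
    · exact hi.hN R C hR hC hb
    · rw [Nat.testBit_shiftRight] at hb
      have e : cell p a + (108 * R + C) = 108 * (R + a.val) + (C + (p a).val) := by
        unfold cell; ring
      rw [e] at hb
      obtain ⟨h1, h2⟩ := P_near (by omega) (by omega) hb
      rw [Nat.cast_add, cast_val] at h1 h2
      exact ⟨a, h1, h2⟩
  · intro R C hR hC hb
    rw [nH_eq, Nat.testBit_or, Bool.or_eq_true] at hb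
    rcases hb with hb | hb
    · exact hi.hH R C hR hC hb
    · rw [Nat.testBit_shiftRight] at hb
      have e : tt p a + (108 * R + C) =
          108 * (R + (13 * a.val) % 27) + (C + (13 * (p a).val) % 27) := by
        unfold tt; ring
      rw [e] at hb
      obtain ⟨h1, h2⟩ := H_near (by omega) (by omega) hb
      rw [Nat.cast_add, ZMod.natCast_mod, Nat.cast_mul, cast_val] at h1 h2
      refine ⟨a, ?_, ?_⟩
      · have e : 2 * (R : ZMod 27) - a = 2 * ((R : ZMod 27) + ((13 : ℕ) : ZMod 27) * a) := by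
          have := two_mul_thirteen a
          have e : 2 * ((R : ZMod 27) + ((13 : ℕ) : ZMod 27) * a) = 2 * R + 2 * (13 * a) := by
            push_cast; ring
          rw [e, this]; ring
        rw [e]; exact h1
      · have e : 2 * (C : ZMod 27) - p a = 2 * ((C : ZMod 27) + ((13 : ℕ) : ZMod 27) * p a) := by
          have := two_mul_thirteen (p a)
          have e : 2 * ((C : ZMod 27) + ((13 : ℕ) : ZMod 27) * p a) = 2 * C + 2 * (13 * p a) := by
            push_cast; ring
          rw [e, this]; ring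
        rw [e]; exact h2

/-! ## The search -/

theorem dec_cell (p : ZMod 27 → ZMod 27) (a : ZMod 27) :
    Nat.land (dec (2 ^ cell p a)) 4095 = cell p a ∧
      Nat.shiftRight (dec (2 ^ cell p a)) 12 = tt p a := by
  have h := chkD
  rw [List.all_eq_true] at h
  have h2 := h a.val (List.mem_range.2 (val_lt' a))
  rw [List.all_eq_true] at h2
  have h3 := h2 (p a).val (List.mem_range.2 (val_lt' (p a)))
  rw [Bool.and_eq_true] at h3
  unfold cell tt
  exact ⟨Nat.eq_of_beq_eq_true h3.1, Nat.eq_of_beq_eq_true h3.2⟩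

theorem sel_eq (x y : ℕ) (lp : ℕ → ℕ) (b : Bool) : sel lp x y b = lp (bif b then y else x) := by
  cases b <;> rfl

theorem fin_eq (D N H c : ℕ) (ih : ℕ → ℕ → ℕ → ℕ → ℕ → ℕ) (lp : ℕ → ℕ) (i t dom' : ℕ) :
    fin D N H c ih lp i t dom' = sel lp c (ih dom' (nD D i) (nN N i) (nH H t) c) (rows dom') := rfl

theorem one_eq (E dom D N H c : ℕ) (ih : ℕ → ℕ → ℕ → ℕ → ℕ → ℕ) (lp : ℕ → ℕ) (b i t : ℕ)
    (hi : Nat.land (dec b) 4095 = i) (ht : Nat.shiftRight (dec b) 12 = t) :
    one E dom D N H c ih lp b = lp (bif rows (nd E dom D N H i t b) then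
      ih (nd E dom D N H i t b) (nD D i) (nN N i) (nH H t) c else c) := by
  unfold one beg mid
  rw [hi, ht, fin_eq, sel_eq]

theorem loop_zero (E dom D N H : ℕ) (ih : ℕ → ℕ → ℕ → ℕ → ℕ → ℕ) (cm c : ℕ) :
    loop E dom D N H ih 0 cm c = 0 := rfl

theorem loop_succ (E dom D N H : ℕ) (ih : ℕ → ℕ → ℕ → ℕ → ℕ → ℕ) (n k c : ℕ) :
    loop E dom D N H ih (n + 1) (k + 1) c =
      one E dom D N H c ih (loop E dom D N H ih n ((k + 1) &&& k)) ((k + 1) ^^^ ((k + 1) &&& k)) :=
  rfl

theorem loop_c {E dom D N H : ℕ} {ih : ℕ → ℕ → ℕ → ℕ → ℕ → ℕ}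
    (hih : ∀ a b c d, ih a b c d 0 = 0) : ∀ n cm, loop E dom D N H ih n cm 0 = 0 := by
  intro n
  induction n with
  | zero => intro cm; rfl
  | succ n h =>
    intro cm
    cases cm with
    | zero => rfl
    | succ k =>
      rw [loop_succ, one_eq _ _ _ _ _ _ _ _ _ _ _ rfl rfl, hih, Bool.cond_self]
      exact h _

theorem solve_zero (E dom D N H c : ℕ) : solve E 0 dom D N H c = 0 := rfl

theorem solve_succ (E n dom D N H c : ℕ) : solve E (n + 1) dom D N H c =
    loop E dom D N H (solve E n) 28 (dom &&& line (c &&& 63)) (c >>> 6) := rfl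

theorem solve_c (E : ℕ) : ∀ n dom D N H, solve E n dom D N H 0 = 0 := by
  intro n
  induction n with
  | zero => intro _ _ _ _; rfl
  | succ n h =>
    intro dom D N H
    rw [solve_succ]
    exact loop_c h 28 _

theorem loop_sound {L : List ℕ} {p : ZMod 27 → ZMod 27} {E dom D N H : ℕ} (hE : EGood E L)
    (hp : Nice L p) (hi : Inv p dom D N H) {ih : ℕ → ℕ → ℕ → ℕ → ℕ → ℕ}
    (hc : ∀ a b c d, ih a b c d 0 = 0)
    (hih : ∀ dom D N H c, Inv p dom D N H → ih dom D N H c = 0) :
    ∀ n cm c, (∃ a, Nat.testBit cm (cell p a) = true) → loop E dom D N H ih n cm c = 0 := by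
  intro n
  induction n with
  | zero => intro cm c _; rfl
  | succ n h =>
    rintro cm c ⟨a, ha⟩
    cases cm with
    | zero => simp at ha
    | succ k =>
      obtain ⟨g, h1, h2⟩ := lowbit (k + 1) (by omega)
      have hx := low_xor h1 h2
      rw [Nat.add_sub_cancel] at h2 hx
      rw [loop_succ, hx]
      by_cases hg : cell p a = g
      · subst hg
        obtain ⟨d1, d2⟩ := dec_cell p a
        obtain ⟨s1, s2⟩ := step hE hp hi a
        rw [one_eq _ _ _ _ _ _ _ _ _ _ _ d1 d2, s1, hih _ _ _ _ _ s2]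
        exact loop_c hc n _
      · rw [one_eq _ _ _ _ _ _ _ _ _ _ _ rfl rfl]
        apply h
        refine ⟨a, ?_⟩
        rw [h2, ha]
        simp [hg]

theorem line_spec {p : ZMod 27 → ZMod 27} (hp : Function.Surjective p) {q : ℕ} (hq : q < 64) :
    ∃ a, Nat.testBit (line q) (cell p a) = true := by
  have h := chkL
  rw [List.all_eq_true] at h
  have h2 := h q (List.mem_range.2 hq)
  rw [Bool.or_eq_true, List.any_eq_true, List.any_eq_true] at h2
  rcases h2 with ⟨r, hr, h3⟩ | ⟨v, hv, h3⟩
  · rw [List.mem_range] at hr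
    rw [List.all_eq_true] at h3
    refine ⟨(r : ZMod 27), ?_⟩
    have := h3 (p (r : ZMod 27)).val (List.mem_range.2 (val_lt' _))
    unfold cell
    rw [ZMod.val_natCast, Nat.mod_eq_of_lt hr]
    exact this
  · rw [List.mem_range] at hv
    rw [List.all_eq_true] at h3
    obtain ⟨a, ha⟩ := hp (v : ZMod 27)
    refine ⟨a, ?_⟩
    have := h3 a.val (List.mem_range.2 (val_lt' _))
    unfold cell
    rw [ha, ZMod.val_natCast, Nat.mod_eq_of_lt hv]
    exact this

theorem solve_sound {L : List ℕ} {p : ZMod 27 → ZMod 27} {E : ℕ} (hE : EGood E L)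
    (hp : Nice L p) : ∀ n dom D N H c, Inv p dom D N H → solve E n dom D N H c = 0 := by
  intro n
  induction n with
  | zero => intro _ _ _ _ _ _; rfl
  | succ n h =>
    intro dom D N H c hi
    rw [solve_succ]
    apply loop_sound hE hp hi (solve_c E n) h
    have hq : c &&& 63 < 64 := by
      have := Nat.and_le_right (n := c) (m := 63)
      omega
    obtain ⟨a, ha⟩ := line_spec hp.surj hq
    refine ⟨a, ?_⟩
    rw [Nat.testBit_and, hi.cells a, ha]
    rfl

theorem put_eq (E i t : ℕ) (k : ℕ → ℕ → ℕ → ℕ → Bool) (dom D N H : ℕ) : put E i t k dom D N H =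
    ch true (ch true (k (nd E dom D N H i t (Nat.shiftLeft 1 i)) (nD D i) (nN N i) (nH H t))
      (rows (nd E dom D N H i t (Nat.shiftLeft 1 i))))
      (Nat.beq (Nat.land (Nat.shiftRight dom i) 1) 1) := rfl

theorem ch_true (x y : Bool) : ch x y true = y := rfl

theorem ch_false (x y : Bool) : ch x y false = x := rfl

theorem bit_beq {dom i : ℕ} (h : Nat.testBit dom i = true) :
    Nat.beq (Nat.land (Nat.shiftRight dom i) 1) 1 = true := by
  show Nat.beq ((dom >>> i) &&& 1) 1 = true
  rw [Nat.testBit_eq_decide_div_mod_eq, decide_eq_true_iff] at h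
  rw [Nat.shiftRight_eq_div_pow, Nat.and_one_is_mod, h]
  rfl

theorem shl_one (i : ℕ) : Nat.shiftLeft 1 i = 2 ^ i := by
  show 1 <<< i = 2 ^ i
  rw [Nat.shiftLeft_eq, Nat.one_mul]

theorem put_sound {L : List ℕ} {p : ZMod 27 → ZMod 27} {E dom D N H : ℕ} (hE : EGood E L)
    (hp : Nice L p) (hi : Inv p dom D N H) {k : ℕ → ℕ → ℕ → ℕ → Bool} (a : ZMod 27) {i t : ℕ}
    (hi1 : i = cell p a) (ht : t = tt p a) (h : put E i t k dom D N H = true) :
    ∃ dom' D' N' H', Inv p dom' D' N' H' ∧ k dom' D' N' H' = true := by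
  subst hi1 ht
  obtain ⟨s1, s2⟩ := step hE hp hi a
  refine ⟨_, _, _, _, s2, ?_⟩
  rw [put_eq, bit_beq (hi.cells a), ch_true, shl_one, s1, ch_true] at h
  exact h

theorem inv_start (p : ZMod 27 → ZMod 27) : Inv p cF 0 0 0 := by
  refine ⟨?_, ?_, ?_, ?_, ?_⟩
  · intro r
    have h1 := val_lt' r
    have h2 := val_lt' (p r)
    rw [F_bit]
    unfold cell
    omega
  · intro j hj
    exact (F_bit.1 hj).1
  · intro R C _ _ h
    simp at h
  · intro R C _ _ h
    simp at h
  · intro R C _ _ h
    simp at h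

theorem run_sound {L : List ℕ} {p : ZMod 27 → ZMod 27} {E : ℕ} (hE : EGood E L)
    (hp : Nice L p) {q e f c : ℕ} (h0 : p 0 = 0) (h1 : p 1 = (q : ZMod 27))
    (h2 : p 2 = ((q + e : ℕ) : ZMod 27)) (h3 : p (-1) = ((27 - f : ℕ) : ZMod 27)) :
    run E q e f c = false := by
  by_contra hc
  rw [Bool.not_eq_false, run_eq] at hc
  obtain ⟨_, _, _, _, i1, k1⟩ := put_sound hE hp (inv_start p) 0
    (by unfold cell; rw [h0]; rfl) (by unfold tt; rw [h0]; rfl) hc
  have v1 : (1 : ZMod 27).val = 1 := rfl
  have v2 : (2 : ZMod 27).val = 2 := rfl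
  have v3 : (-1 : ZMod 27).val = 26 := rfl
  obtain ⟨_, _, _, _, i2, k2⟩ := put_sound hE hp i1 1
    (by unfold cell; rw [h1, ZMod.val_natCast, v1]; rfl)
    (by unfold tt; rw [h1, ZMod.val_natCast, v1]; rfl) k1
  obtain ⟨_, _, _, _, i3, k3⟩ := put_sound hE hp i2 2
    (by unfold cell; rw [h2, ZMod.val_natCast, v2]; rfl)
    (by unfold tt; rw [h2, ZMod.val_natCast, v2]; rfl) k2
  obtain ⟨_, _, _, _, i4, k4⟩ := put_sound hE hp i3 (-1)
    (by unfold cell; rw [h3, ZMod.val_natCast, v3]; rfl)
    (by unfold tt; rw [h3, ZMod.val_natCast, v3]; rfl) k3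
  rw [solve_sound hE hp 30 _ _ _ _ c i4] at k4
  exact absurd k4 (by decide)

theorem chk_cons (E q : ℕ) (y : ℕ × ℕ) (l : List (ℕ × ℕ)) (cs : List ℕ) :
    chk E q (y :: l) cs = ch false (chk E q l cs.tail) (run E q y.1 y.2 (cs.headD 0)) := rfl

theorem chk_spec {E q : ℕ} : ∀ (l : List (ℕ × ℕ)) (cs : List ℕ), chk E q l cs = true →
    ∀ x ∈ l, ∃ c, run E q x.1 x.2 c = true := by
  intro l
  induction l with
  | nil => intro cs _ x hx; simp at hx
  | cons y l ih =>
    intro cs h x hx
    rw [chk_cons] at h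
    cases hr : run E q y.1 y.2 (cs.headD 0)
    · rw [hr, ch_false] at h
      exact absurd h (by simp)
    · rw [hr, ch_true] at h
      rcases List.mem_cons.1 hx with rfl | hx
      · exact ⟨_, hr⟩
      · exact ih cs.tail h x hx

end Pool.Agent.Q152.ZP
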