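import Mathlib
import Pool.Agent.Q152.ZP.Sound

set_option autoImplicit false
set_option maxRecDepth 100000

/-!
# Symmetries of the good permutations, and the reduction to the searches
-/

namespace Pool.Agent.Q152.ZP

theorem ab_neg' (u : ZMod 27) : ab (-u).val = ab u.val := by
  revert u; decide

theorem unit_mul {ε : ZMod 27} (h : ε = 1 ∨ ε = -1) : ε * ε = 1 := by
  rcases h with rfl | rfl <;> decide

theorem ab_mul {ε : ZMod 27} (h : ε = 1 ∨ ε = -1) (u : ZMod 27) : ab (ε * u).val = ab u.val := by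
  rcases h with rfl | rfl
  · rw [one_mul]
  · rw [neg_one_mul, ab_neg']

theorem nr_mul {ε : ZMod 27} (h : ε = 1 ∨ ε = -1) {u : ZMod 27} (hu : nr (ε * u)) : nr u := by
  rcases h with rfl | rfl
  · rw [one_mul] at hu; exact hu
  · rw [neg_one_mul] at hu
    have := nr_neg hu
    rw [neg_neg] at this
    exact this

theorem nr_mul' {ε : ZMod 27} (h : ε = 1 ∨ ε = -1) {u : ZMod 27} (hu : nr u) : nr (ε * u) := by
  rcases h with rfl | rfl
  · rw [one_mul]; exact hu
  · rw [neg_one_mul]; exact nr_neg hu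

theorem Nice.affine {L : List ℕ} {p : ZMod 27 → ZMod 27} (hp : Nice L p) {ε δ : ZMod 27}
    (hε : ε = 1 ∨ ε = -1) (hδ : δ = 1 ∨ δ = -1) (s w : ZMod 27) :
    Nice L (fun x => ε * p (δ * x + s) + w) := by
  have e1 := unit_mul hε
  have d1 := unit_mul hδ
  refine ⟨?_, ?_, ?_, ?_⟩
  · intro y
    obtain ⟨z, hz⟩ := hp.surj (ε * (y - w))
    refine ⟨δ * (z - s), ?_⟩
    have h1 : δ * (δ * (z - s)) + s = z := by
      rw [← mul_assoc, d1]; ring
    show ε * p (δ * (δ * (z - s)) + s) + w = y
    rw [h1, hz, ← mul_assoc, e1]; ring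
  · intro a b c h1 h2 h3
    have h4 : ε * p (δ * a + s) + w + (ε * p (δ * c + s) + w) - 2 * (ε * p (δ * b + s) + w) =
        ε * (p (δ * a + s) + p (δ * c + s) - 2 * p (δ * b + s)) := by ring
    have h5 : nr (p (δ * a + s) + p (δ * c + s) - 2 * p (δ * b + s)) := by
      apply nr_mul hε
      rw [← h4]; exact h3
    have hcan : ∀ x y : ZMod 27, δ * x + s = δ * y + s → x = y := by
      intro x y h
      have := add_right_cancel h
      have h2 : δ * (δ * x) = δ * (δ * y) := by rw [this]
      rw [← mul_assoc, ← mul_assoc, d1, one_mul, one_mul] at h2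
      exact h2
    apply hp.good (δ * a + s) (δ * b + s) (δ * c + s) _ _ h5
    · rintro ⟨h6, h7⟩
      exact h1 ⟨hcan _ _ h6, hcan _ _ h7⟩
    · have h6 : δ * a + s + (δ * c + s) - 2 * (δ * b + s) = δ * (a + c - 2 * b) := by ring
      rw [h6]
      exact nr_mul' hδ h2
  · intro a b hab
    have h1 : ε * p (δ * a + s) + w - (ε * p (δ * b + s) + w) =
        ε * (p (δ * a + s) - p (δ * b + s)) := by ring
    show ab (ε * p (δ * a + s) + w - (ε * p (δ * b + s) + w)).val ∉ L
    rw [h1, ab_mul hε]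
    have h2 : (δ * a + s) - (δ * b + s) = δ := by
      have : (δ * a + s) - (δ * b + s) = δ * (a - b) := by ring
      rw [this, hab, mul_one]
    rcases hδ with rfl | rfl
    · exact hp.av _ _ h2
    · rw [← ab_neg', neg_sub]
      apply hp.av
      rw [← neg_sub, h2, neg_neg]
  · intro a b hab
    have h1 : ε * p (δ * a + s) + w - (ε * p (δ * b + s) + w) =
        ε * (p (δ * a + s) - p (δ * b + s)) := by ring
    have h0 : ε * p (δ * a + s) + w - (ε * p (δ * b + s) + w) = 1 := hab
    rw [h1] at h0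
    have h2 : p (δ * a + s) - p (δ * b + s) = ε := by
      have : ε * (ε * (p (δ * a + s) - p (δ * b + s))) = ε * 1 := by rw [h0]
      rw [← mul_assoc, e1, one_mul, mul_one] at this
      exact this
    have h3 : (δ * a + s) - (δ * b + s) = δ * (a - b) := by ring
    rcases hε with rfl | rfl
    · have := hp.av' _ _ h2
      rw [h3, ab_mul hδ] at this
      exact this
    · have h4 : p (δ * b + s) - p (δ * a + s) = 1 := by rw [← neg_sub, h2, neg_neg]
      have := hp.av' _ _ h4
      have h5 : (δ * b + s) - (δ * a + s) = δ * (-(a - b)) := by ring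
      rw [h5, ab_mul hδ, ab_neg'] at this
      exact this

theorem Nice.symm {L : List ℕ} {π : Equiv.Perm (ZMod 27)} (hp : Nice L π) : Nice L π.symm := by
  refine ⟨π.symm.surjective, ?_, ?_, ?_⟩
  · intro a b c h1 h2 h3
    apply hp.good (π.symm a) (π.symm b) (π.symm c) _ h3
    · rw [Equiv.apply_symm_apply, Equiv.apply_symm_apply, Equiv.apply_symm_apply]
      exact h2
    · rintro ⟨h4, h5⟩
      exact h1 ⟨π.symm.injective h4, π.symm.injective h5⟩
  · intro a b hab
    apply hp.av'
    rw [Equiv.apply_symm_apply, Equiv.apply_symm_apply]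
    exact hab
  · intro a b hab
    have := hp.av _ _ hab
    rw [Equiv.apply_symm_apply, Equiv.apply_symm_apply] at this
    exact this

theorem ab_cases (u : ZMod 27) : u = ((ab u.val : ℕ) : ZMod 27) ∨ -u = ((ab u.val : ℕ) : ZMod 27) := by
  revert u; decide

theorem Nice.next {L : List ℕ} {q : ℕ}
    (H : ∀ p, Nice L p → p 0 = 0 → p 1 = (q : ZMod 27) → False) {π : Equiv.Perm (ZMod 27)}
    (hp : Nice L π) : Nice (L ++ [q]) π := by
  have key : ∀ σ : Equiv.Perm (ZMod 27), Nice L σ → ∀ a b, a - b = 1 → ab (σ a - σ b).val ≠ q := by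
    intro σ hσ a b hab hq
    have ha : a = 1 + b := by rw [← hab]; ring
    rcases ab_cases (σ a - σ b) with h | h
    · rw [hq] at h
      apply H _ (hσ.affine (Or.inl rfl) (Or.inl rfl) b (-σ b))
      · show 1 * σ (1 * 0 + b) + -σ b = 0
        rw [mul_zero, zero_add]; ring
      · show 1 * σ (1 * 1 + b) + -σ b = _
        rw [← h, mul_one, ← ha]; ring
    · rw [hq] at h
      apply H _ (hσ.affine (Or.inr rfl) (Or.inl rfl) b (σ b))
      · show -1 * σ (1 * 0 + b) + σ b = 0
        rw [mul_zero, zero_add]; ring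
      · show -1 * σ (1 * 1 + b) + σ b = _
        rw [← h, mul_one, ← ha]; ring
  refine ⟨hp.surj, hp.good, ?_, ?_⟩
  · intro a b hab hc
    rw [List.mem_append] at hc
    rcases hc with hc | hc
    · exact hp.av a b hab hc
    · exact key π hp a b hab (List.mem_singleton.1 hc)
  · intro a b hab hc
    rw [List.mem_append] at hc
    rcases hc with hc | hc
    · exact hp.av' a b hab hc
    · have := key π.symm hp.symm (π a) (π b) hab
      rw [Equiv.symm_apply_apply, Equiv.symm_apply_apply] at this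
      exact this (List.mem_singleton.1 hc)

theorem none_of {L : List ℕ} {E q : ℕ} (hE : EGood E L)
    (hcov : ∀ e f, e ≤ f → f < 27 → ∃ c, run E q e f c = true) :
    ∀ p, Nice L p → p 0 = 0 → p 1 = (q : ZMod 27) → False := by
  have main : ∀ p, Nice L p → p 0 = 0 → p 1 = (q : ZMod 27) →
      (p 2 - q).val ≤ (-p (-1)).val → False := by
    intro p hp h0 h1 hle
    obtain ⟨c, hc⟩ := hcov _ _ hle (val_lt' _)
    have h2 : p 2 = ((q + (p 2 - q).val : ℕ) : ZMod 27) := by
      rw [Nat.cast_add, cast_val]; ring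
    have h3 : p (-1) = ((27 - (-p (-1)).val : ℕ) : ZMod 27) := by
      rw [Nat.cast_sub (le_of_lt (val_lt' _)), cast_val]
      have : ((27 : ℕ) : ZMod 27) = 0 := by decide
      rw [this]; ring
    rw [run_sound hE hp h0 h1 h2 h3] at hc
    exact absurd hc (by simp)
  intro p hp h0 h1
  rcases le_or_gt (p 2 - q).val (-p (-1)).val with h | h
  · exact main p hp h0 h1 h
  · have hp' := hp.affine (Or.inr rfl) (Or.inr rfl) 1 (q : ZMod 27)
    have g0 : (-1 : ZMod 27) * p (-1 * 0 + 1) + q = 0 := by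
      rw [mul_zero, zero_add, h1]; ring
    have g1 : (-1 : ZMod 27) * p (-1 * 1 + 1) + q = q := by
      have : (-1 : ZMod 27) * 1 + 1 = 0 := by decide
      rw [this, h0]; ring
    have g2 : (-1 : ZMod 27) * p (-1 * 2 + 1) + q - q = -p (-1) := by
      have : (-1 : ZMod 27) * 2 + 1 = -1 := by decide
      rw [this]; ring
    have g3 : -((-1 : ZMod 27) * p (-1 * (-1) + 1) + q) = p 2 - q := by
      have : (-1 : ZMod 27) * (-1) + 1 = 2 := by decide
      rw [this]; ring
    apply main _ hp' g0 g1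
    show ((-1 : ZMod 27) * p (-1 * 2 + 1) + q - q).val ≤
      (-((-1 : ZMod 27) * p (-1 * (-1) + 1) + q)).val
    rw [g2, g3]
    exact le_of_lt h

/-- all pairs `(e, f)` with `e ≤ f < 27` -/
def std : List (ℕ × ℕ) :=
  (List.range 27).flatMap fun e => (List.range' e (27 - e)).map fun f => (e, f)

theorem mem_std {e f : ℕ} (h1 : e ≤ f) (h2 : f < 27) : (e, f) ∈ std := by
  unfold std
  rw [List.mem_flatMap]
  refine ⟨e, List.mem_range.2 (by omega), ?_⟩
  rw [List.mem_map]
  refine ⟨f, ?_, rfl⟩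
  rw [List.mem_range'_1]
  omega

/-- the pairs of a list are treated -/
def Done (E q : ℕ) (l : List (ℕ × ℕ)) : Prop := ∀ x ∈ l, ∃ c, run E q x.1 x.2 c = true

theorem Done.of {E q : ℕ} {l : List (ℕ × ℕ)} (h : ∃ cs, chk E q l cs = true) : Done E q l := by
  obtain ⟨cs, hcs⟩ := h
  exact chk_spec l cs hcs

theorem Done.append {E q : ℕ} {l m : List (ℕ × ℕ)} (h1 : Done E q l) (h2 : Done E q m) :
    Done E q (l ++ m) := by
  intro x hx
  rw [List.mem_append] at hx
  rcases hx with hx | hx
  · exact h1 x hx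
  · exact h2 x hx

theorem Done.cov {E q : ℕ} {l : List (ℕ × ℕ)} (h : Done E q l) (hl : l = std) :
    ∀ e f, e ≤ f → f < 27 → ∃ c, run E q e f c = true := by
  intro e f h1 h2
  exact h (e, f) (by rw [hl]; exact mem_std h1 h2)

theorem ab_mem (u : ZMod 27) (h : ¬ nr u) : ab u.val ∈ [3, 12, 7, 5, 2, 9, 11, 13, 4, 6, 8, 10] := by
  revert u; decide

theorem Nice.false {π : ZMod 27 → ZMod 27} (hp : Nice [3, 12, 7, 5, 2, 9, 11, 13, 4, 6, 8, 10] π) :
    False := by
  have h1 : ¬ nr (π 0 + π 1 - 2 * π 0) := by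
    apply hp.good 0 0 1
    · decide
    · decide
  have e : π 0 + π 1 - 2 * π 0 = π 1 - π 0 := by ring
  rw [e] at h1
  exact hp.av 1 0 (by decide) (ab_mem _ h1)

end Pool.Agent.Q152.ZP
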