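import Pool.Agent.Q152.ZP.Run12
import Pool.Agent.Q152.ZP.Run13
import Pool.Agent.Q152.ZP.Run14
import Pool.Agent.Q152.ZP.Run15
import Pool.Agent.Q152.ZP.Norm

set_option autoImplicit false
set_option maxRecDepth 100000

/-!
# The twelve types
-/

namespace Pool.Agent.Q152.ZP

theorem l_0 : ks_0_0 ++ ks_0_1 ++ ks_0_2 ++ ks_0_3 ++ ks_0_4 ++ ks_0_5 ++ ks_0_6 ++ ks_0_7 ++ ks_0_8 ++ ks_0_9 ++ ks_0_10 ++ ks_0_11 ++ ks_0_12 ++ ks_0_13 ++ ks_0_14 ++ ks_0_15 ++ ks_0_16 ++ ks_0_17 ++ ks_0_18 ++ ks_0_19 ++ ks_0_20 ++ ks_0_21 ++ ks_0_22 ++ ks_0_23 ++ ks_0_24 ++ ks_0_25 ++ ks_0_26 ++ ks_0_27 ++ ks_0_28 ++ ks_0_29 ++ ks_0_30 ++ ks_0_31 ++ ks_0_32 ++ ks_0_33 ++ ks_0_34 ++ ks_0_35 ++ ks_0_36 ++ ks_0_37 ++ ks_0_38 ++ ks_0_39 ++ ks_0_40 ++ ks_0_41 ++ ks_0_42 ++ ks_0_43 ++ ks_0_44 ++ ks_0_45 ++ ks_0_46 ++ ks_0_47 ++ ks_0_48 ++ ks_0_49 ++ ks_0_50 ++ ks_0_51 ++ ks_0_52 ++ ks_0_53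 ++ ks_0_54 ++ ks_0_55 ++ ks_0_56 ++ ks_0_57 ++ ks_0_58 ++ ks_0_59 ++ ks_0_60 ++ ks_0_61 ++ ks_0_62 ++ ks_0_63 ++ ks_0_64 ++ ks_0_65 ++ ks_0_66 ++ ks_0_67 ++ ks_0_68 ++ ks_0_69 ++ ks_0_70 ++ ks_0_71 ++ ks_0_72 ++ ks_0_73 ++ ks_0_74 ++ ks_0_75 ++ ks_0_76 ++ ks_0_77 ++ ks_0_78 ++ ks_0_79 ++ ks_0_80 ++ ks_0_81 ++ ks_0_82 ++ ks_0_83 ++ ks_0_84 ++ ks_0_85 ++ ks_0_86 ++ ks_0_87 ++ ks_0_88 ++ ks_0_89 ++ ks_0_90 ++ ks_0_91 ++ ks_0_92 ++ ks_0_93 ++ ks_0_94 ++ ks_0_95 ++ ks_0_96 ++ ks_0_97 = std := by decide +kernel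

theorem d_0 : Done cE0 3 (ks_0_0 ++ ks_0_1 ++ ks_0_2 ++ ks_0_3 ++ ks_0_4 ++ ks_0_5 ++ ks_0_6 ++ ks_0_7 ++ ks_0_8 ++ ks_0_9 ++ ks_0_10 ++ ks_0_11 ++ ks_0_12 ++ ks_0_13 ++ ks_0_14 ++ ks_0_15 ++ ks_0_16 ++ ks_0_17 ++ ks_0_18 ++ ks_0_19 ++ ks_0_20 ++ ks_0_21 ++ ks_0_22 ++ ks_0_23 ++ ks_0_24 ++ ks_0_25 ++ ks_0_26 ++ ks_0_27 ++ ks_0_28 ++ ks_0_29 ++ ks_0_30 ++ ks_0_31 ++ ks_0_32 ++ ks_0_33 ++ ks_0_34 ++ ks_0_35 ++ ks_0_36 ++ ks_0_37 ++ ks_0_38 ++ ks_0_39 ++ ks_0_40 ++ ks_0_41 ++ ks_0_42 ++ ks_0_43 ++ ks_0_44 ++ ks_0_45 ++ ks_0_46 ++ ks_0_47 ++ ks_0_48 ++ ks_0_49 ++ ks_0_50 ++ ks_0_51 ++ ks_0_52 ++ ks_0_53 ++ ks_0_54 ++ ks_0_55 ++ ks_0_56 ++ ks_0_57 ++ ks_0_58 ++ ks_0_59 ++ ks_0_60 ++ ks_0_61 ++ ks_0_62 ++ ks_0_63 ++ ks_0_64 ++ ks_0_65 ++ ks_0_66 ++ ks_0_67 ++ ks_0_68 ++ ks_0_69 ++ ks_0_70 ++ ks_0_71 ++ ks_0_72 ++ ks_0_73 ++ ks_0_74 ++ ks_0_75 ++ ks_0_76 ++ ks_0_77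 ++ ks_0_78 ++ ks_0_79 ++ ks_0_80 ++ ks_0_81 ++ ks_0_82 ++ ks_0_83 ++ ks_0_84 ++ ks_0_85 ++ ks_0_86 ++ ks_0_87 ++ ks_0_88 ++ ks_0_89 ++ ks_0_90 ++ ks_0_91 ++ ks_0_92 ++ ks_0_93 ++ ks_0_94 ++ ks_0_95 ++ ks_0_96 ++ ks_0_97) :=
  ((((((((((((((((((((((((((((((((((((((((((((((((((((((((((((((((((((((((((((((((((((((((((((((((((Done.of r_0_0).append (Done.of r_0_1)).append (Done.of r_0_2)).append (Done.of r_0_3)).append (Done.of r_0_4)).append (Done.of r_0_5)).append (Done.of r_0_6)).append (Done.of r_0_7)).append (Done.of r_0_8)).append (Done.of r_0_9)).append (Done.of r_0_10)).append (Done.of r_0_11)).append (Done.of r_0_12)).append (Done.of r_0_13)).append (Done.of r_0_14)).append (Done.of r_0_15)).append (Done.of r_0_16)).append (Done.of r_0_17)).append (Done.of r_0_18)).append (Done.of r_0_19)).append (Done.of r_0_20)).append (Done.of r_0_21)).append (Done.of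 r_0_22)).append (Done.of r_0_23)).append (Done.of r_0_24)).append (Done.of r_0_25)).append (Done.of r_0_26)).append (Done.of r_0_27)).append (Done.of r_0_28)).append (Done.of r_0_29)).append (Done.of r_0_30)).append (Done.of r_0_31)).append (Done.of r_0_32)).append (Done.of r_0_33)).append (Done.of r_0_34)).append (Done.of r_0_35)).append (Done.of r_0_36)).append (Done.of r_0_37)).append (Done.of r_0_38)).append (Done.of r_0_39)).append (Done.of r_0_40)).append (Done.of r_0_41)).append (Done.of r_0_42)).append (Done.of r_0_43)).append (Done.of r_0_44)).append (Done.of r_0_45)).append (Done.of r_0_46)).append (Done.of r_0_47)).append (Done.of r_0_48)).append (Done.of r_0_49)).append (Done.of r_0_50)).append (Done.of r_0_51)).append (Done.of r_0_52)).append (Done.of r_0_53)).append (Done.of r_0_54)).append (Done.of r_0_55)).append (Done.of r_0_56)).append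 (Done.of r_0_57)).append (Done.of r_0_58)).append (Done.of r_0_59)).append (Done.of r_0_60)).append (Done.of r_0_61)).append (Done.of r_0_62)).append (Done.of r_0_63)).append (Done.of r_0_64)).append (Done.of r_0_65)).append (Done.of r_0_66)).append (Done.of r_0_67)).append (Done.of r_0_68)).append (Done.of r_0_69)).append (Done.of r_0_70)).append (Done.of r_0_71)).append (Done.of r_0_72)).append (Done.of r_0_73)).append (Done.of r_0_74)).append (Done.of r_0_75)).append (Done.of r_0_76)).append (Done.of r_0_77)).append (Done.of r_0_78)).append (Done.of r_0_79)).append (Done.of r_0_80)).append (Done.of r_0_81)).append (Done.of r_0_82)).append (Done.of r_0_83)).append (Done.of r_0_84)).append (Done.of r_0_85)).append (Done.of r_0_86)).append (Done.of r_0_87)).append (Done.of r_0_88)).append (Done.of r_0_89)).append (Done.of r_0_90)).append (Done.of r_0_91)).append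 (Done.of r_0_92)).append (Done.of r_0_93)).append (Done.of r_0_94)).append (Done.of r_0_95)).append (Done.of r_0_96)).append (Done.of r_0_97))

theorem n_0 : ∀ p, Nice [] p → p 0 = 0 → p 1 = ((3 : ℕ) : ZMod 27) → False :=
  none_of (EGood_of chkE0) (d_0.cov l_0)

theorem l_1 : ks_1_0 ++ ks_1_1 ++ ks_1_2 ++ ks_1_3 ++ ks_1_4 ++ ks_1_5 ++ ks_1_6 ++ ks_1_7 ++ ks_1_8 ++ ks_1_9 ++ ks_1_10 ++ ks_1_11 ++ ks_1_12 ++ ks_1_13 ++ ks_1_14 ++ ks_1_15 ++ ks_1_16 ++ ks_1_17 ++ ks_1_18 ++ ks_1_19 ++ ks_1_20 ++ ks_1_21 ++ ks_1_22 ++ ks_1_23 ++ ks_1_24 ++ ks_1_25 ++ ks_1_26 ++ ks_1_27 ++ ks_1_28 ++ ks_1_29 ++ ks_1_30 ++ ks_1_31 ++ ks_1_32 ++ ks_1_33 ++ ks_1_34 ++ ks_1_35 ++ ks_1_36 = std := by decide +kernel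

theorem d_1 : Done cE1 12 (ks_1_0 ++ ks_1_1 ++ ks_1_2 ++ ks_1_3 ++ ks_1_4 ++ ks_1_5 ++ ks_1_6 ++ ks_1_7 ++ ks_1_8 ++ ks_1_9 ++ ks_1_10 ++ ks_1_11 ++ ks_1_12 ++ ks_1_13 ++ ks_1_14 ++ ks_1_15 ++ ks_1_16 ++ ks_1_17 ++ ks_1_18 ++ ks_1_19 ++ ks_1_20 ++ ks_1_21 ++ ks_1_22 ++ ks_1_23 ++ ks_1_24 ++ ks_1_25 ++ ks_1_26 ++ ks_1_27 ++ ks_1_28 ++ ks_1_29 ++ ks_1_30 ++ ks_1_31 ++ ks_1_32 ++ ks_1_33 ++ ks_1_34 ++ ks_1_35 ++ ks_1_36) :=
  (((((((((((((((((((((((((((((((((((((Done.of r_1_0).append (Done.of r_1_1)).append (Done.of r_1_2)).append (Done.of r_1_3)).append (Done.of r_1_4)).append (Done.of r_1_5)).append (Done.of r_1_6)).append (Done.of r_1_7)).append (Done.of r_1_8)).append (Done.of r_1_9)).append (Done.of r_1_10)).append (Done.of r_1_11)).append (Done.of r_1_12)).append (Done.of r_1_13)).append (Done.of r_1_14)).append (Done.of r_1_15)).append (Done.of r_1_16)).append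 (Done.of r_1_17)).append (Done.of r_1_18)).append (Done.of r_1_19)).append (Done.of r_1_20)).append (Done.of r_1_21)).append (Done.of r_1_22)).append (Done.of r_1_23)).append (Done.of r_1_24)).append (Done.of r_1_25)).append (Done.of r_1_26)).append (Done.of r_1_27)).append (Done.of r_1_28)).append (Done.of r_1_29)).append (Done.of r_1_30)).append (Done.of r_1_31)).append (Done.of r_1_32)).append (Done.of r_1_33)).append (Done.of r_1_34)).append (Done.of r_1_35)).append (Done.of r_1_36))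

theorem n_1 : ∀ p, Nice [3] p → p 0 = 0 → p 1 = ((12 : ℕ) : ZMod 27) → False :=
  none_of (EGood_of chkE1) (d_1.cov l_1)

theorem l_2 : ks_2_0 ++ ks_2_1 ++ ks_2_2 ++ ks_2_3 ++ ks_2_4 ++ ks_2_5 ++ ks_2_6 ++ ks_2_7 ++ ks_2_8 ++ ks_2_9 ++ ks_2_10 ++ ks_2_11 ++ ks_2_12 ++ ks_2_13 ++ ks_2_14 = std := by decide +kernel

theorem d_2 : Done cE2 7 (ks_2_0 ++ ks_2_1 ++ ks_2_2 ++ ks_2_3 ++ ks_2_4 ++ ks_2_5 ++ ks_2_6 ++ ks_2_7 ++ ks_2_8 ++ ks_2_9 ++ ks_2_10 ++ ks_2_11 ++ ks_2_12 ++ ks_2_13 ++ ks_2_14) :=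
  (((((((((((((((Done.of r_2_0).append (Done.of r_2_1)).append (Done.of r_2_2)).append (Done.of r_2_3)).append (Done.of r_2_4)).append (Done.of r_2_5)).append (Done.of r_2_6)).append (Done.of r_2_7)).append (Done.of r_2_8)).append (Done.of r_2_9)).append (Done.of r_2_10)).append (Done.of r_2_11)).append (Done.of r_2_12)).append (Done.of r_2_13)).append (Done.of r_2_14))

theorem n_2 : ∀ p, Nice [3, 12] p → p 0 = 0 → p 1 = ((7 : ℕ) : ZMod 27) → False :=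
  none_of (EGood_of chkE2) (d_2.cov l_2)

theorem l_3 : ks_3_0 ++ ks_3_1 ++ ks_3_2 ++ ks_3_3 ++ ks_3_4 ++ ks_3_5 = std := by decide +kernel

theorem d_3 : Done cE3 5 (ks_3_0 ++ ks_3_1 ++ ks_3_2 ++ ks_3_3 ++ ks_3_4 ++ ks_3_5) :=
  ((((((Done.of r_3_0).append (Done.of r_3_1)).append (Done.of r_3_2)).append (Done.of r_3_3)).append (Done.of r_3_4)).append (Done.of r_3_5))

theorem n_3 : ∀ p, Nice [3, 12, 7] p → p 0 = 0 → p 1 = ((5 : ℕ) : ZMod 27) → False :=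
  none_of (EGood_of chkE3) (d_3.cov l_3)

theorem l_4 : ks_4_0 ++ ks_4_1 = std := by decide +kernel

theorem d_4 : Done cE4 2 (ks_4_0 ++ ks_4_1) :=
  ((Done.of r_4_0).append (Done.of r_4_1))

theorem n_4 : ∀ p, Nice [3, 12, 7, 5] p → p 0 = 0 → p 1 = ((2 : ℕ) : ZMod 27) → False :=
  none_of (EGood_of chkE4) (d_4.cov l_4)

theorem l_5 : ks_5_0 = std := by decide +kernel

theorem d_5 : Done cE5 9 (ks_5_0) :=
  (Done.of r_5_0)

theorem n_5 : ∀ p, Nice [3, 12, 7, 5, 2] p → p 0 = 0 → p 1 = ((9 : ℕ) : ZMod 27) → False :=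
  none_of (EGood_of chkE5) (d_5.cov l_5)

theorem l_6 : ks_6_0 = std := by decide +kernel

theorem d_6 : Done cE6 11 (ks_6_0) :=
  (Done.of r_6_0)

theorem n_6 : ∀ p, Nice [3, 12, 7, 5, 2, 9] p → p 0 = 0 → p 1 = ((11 : ℕ) : ZMod 27) → False :=
  none_of (EGood_of chkE6) (d_6.cov l_6)

theorem l_7 : ks_7_0 = std := by decide +kernel

theorem d_7 : Done cE7 13 (ks_7_0) :=
  (Done.of r_7_0)

theorem n_7 : ∀ p, Nice [3, 12, 7, 5, 2, 9, 11] p → p 0 = 0 → p 1 = ((13 : ℕ) : ZMod 27) → False :=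
  none_of (EGood_of chkE7) (d_7.cov l_7)

theorem l_8 : ks_8_0 = std := by decide +kernel

theorem d_8 : Done cE8 4 (ks_8_0) :=
  (Done.of r_8_0)

theorem n_8 : ∀ p, Nice [3, 12, 7, 5, 2, 9, 11, 13] p → p 0 = 0 → p 1 = ((4 : ℕ) : ZMod 27) → False :=
  none_of (EGood_of chkE8) (d_8.cov l_8)

theorem l_9 : ks_9_0 = std := by decide +kernel

theorem d_9 : Done cE9 6 (ks_9_0) :=
  (Done.of r_9_0)

theorem n_9 : ∀ p, Nice [3, 12, 7, 5, 2, 9, 11, 13, 4] p → p 0 = 0 → p 1 = ((6 : ℕ) : ZMod 27) → False :=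
  none_of (EGood_of chkE9) (d_9.cov l_9)

theorem l_10 : ks_10_0 = std := by decide +kernel

theorem d_10 : Done cE10 8 (ks_10_0) :=
  (Done.of r_10_0)

theorem n_10 : ∀ p, Nice [3, 12, 7, 5, 2, 9, 11, 13, 4, 6] p → p 0 = 0 → p 1 = ((8 : ℕ) : ZMod 27) → False :=
  none_of (EGood_of chkE10) (d_10.cov l_10)

theorem l_11 : ks_11_0 = std := by decide +kernel

theorem d_11 : Done cE11 10 (ks_11_0) :=
  (Done.of r_11_0)

theorem n_11 : ∀ p, Nice [3, 12, 7, 5, 2, 9, 11, 13, 4, 6, 8] p → p 0 = 0 → p 1 = ((10 : ℕ) : ZMod 27) → False :=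
  none_of (EGood_of chkE11) (d_11.cov l_11)

theorem none (π : Equiv.Perm (ZMod 27)) (h : Nice [] π) : False := by
  have h1 : Nice [3] π := h.next n_0
  have h2 : Nice [3, 12] π := h1.next n_1
  have h3 : Nice [3, 12, 7] π := h2.next n_2
  have h4 : Nice [3, 12, 7, 5] π := h3.next n_3
  have h5 : Nice [3, 12, 7, 5, 2] π := h4.next n_4
  have h6 : Nice [3, 12, 7, 5, 2, 9] π := h5.next n_5
  have h7 : Nice [3, 12, 7, 5, 2, 9, 11] π := h6.next n_6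
  have h8 : Nice [3, 12, 7, 5, 2, 9, 11, 13] π := h7.next n_7
  have h9 : Nice [3, 12, 7, 5, 2, 9, 11, 13, 4] π := h8.next n_8
  have h10 : Nice [3, 12, 7, 5, 2, 9, 11, 13, 4, 6] π := h9.next n_9
  have h11 : Nice [3, 12, 7, 5, 2, 9, 11, 13, 4, 6, 8] π := h10.next n_10
  have h12 : Nice [3, 12, 7, 5, 2, 9, 11, 13, 4, 6, 8, 10] π := h11.next n_11
  exact h12.false

end Pool.Agent.Q152.ZP
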